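import Pool.Agent.Helper614.PB2

open Set Filter Topology TopologicalSpace

namespace Pool.Agent.Results.MP_31ff53_gt.NotKSpace

/-- `𝓑` is a pretty base of the space `X`: a base of clopen sets such that whenever countably many
members (the family `𝒞`) are each disjoint from each member of an arbitrary subfamily `𝒟`, some
member `W` contains all members of `𝒞` and misses all members of `𝒟`. -/
structure IsPrettyBase {X : Type*} [TopologicalSpace X] (𝓑 : Set (Set X)) : Prop where
  isBasis : IsTopologicalBasis 𝓑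
  isClopen : ∀ U ∈ 𝓑, IsClopen U
  nested : ∀ 𝒞 ⊆ 𝓑, ∀ 𝒟 ⊆ 𝓑, 𝒞.Countable → (∀ U ∈ 𝒞, ∀ V ∈ 𝒟, Disjoint U V) →
    ∃ W ∈ 𝓑, (∀ U ∈ 𝒞, U ⊆ W) ∧ ∀ V ∈ 𝒟, Disjoint W V

/-- The cotopology of a base `𝓑`: generated by the complements of the closures of its members. -/
abbrev cotopology {X : Type*} [TopologicalSpace X] (𝓑 : Set (Set X)) : TopologicalSpace X :=
  generateFrom {V | ∃ B ∈ 𝓑, V = (closure B)ᶜ}

/-- `X` has a cocompact pretty base: a pretty base whose cotopology is compact. -/
def HasCocompactPrettyBase (X : Type*) [TopologicalSpace X] : Prop :=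
  ∃ 𝓑 : Set (Set X), IsPrettyBase 𝓑 ∧ @CompactSpace X (cotopology 𝓑)

/-- `X` is a k-space: a set `A` is closed whenever `A ∩ K` is closed in the subspace `K` for every
compact `K`. -/
def IsKSpace (X : Type*) [TopologicalSpace X] : Prop :=
  ∀ A : Set X, (∀ K : Set X, IsCompact K → IsClosed {x : K | (x : X) ∈ A}) → IsClosed A

open Pool.Agent.Helper614.PB in
/-- There is a Tychonoff space with a cocompact pretty base that is not a k-space. -/
theorem result : ∃ (X : Type) (_ : TopologicalSpace X), T35Space X ∧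
    HasCocompactPrettyBase X ∧ ¬ IsKSpace X := by
  refine ⟨X1, inferInstance, t35 good1, ?_, ?_⟩
  · refine ⟨hat u1 '' Lat u1 (fun _ => Set.univ), ⟨isBasis_lat good1, ?_, ?_⟩, cocompact good1⟩
    · rintro _ ⟨E, hE, rfl⟩; exact isClopen_hat good1 hE
    · intro 𝒞 h𝒞 𝒟 h𝒟 hc hd
      exact nested good1 𝒞 𝒟 h𝒞 h𝒟 hc hd
  · intro hk
    refine X1_not_closed (hk _ fun K hK => ?_)
    have h1 := (X1_compact_inter_closed K hK).preimage (continuous_subtype_val (p := (· ∈ K)))
    convert h1 using 1
    ext x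
    simp

end Pool.Agent.Results.MP_31ff53_gt.NotKSpace
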